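import Pool.Agent.H30.RK.Stm
import Pool.Graph.R_seed8.Results.MP_518c18_al.SolubleRank

/-!
# Project RK: from MAIN to the number of orbit sizes
-/

set_option autoImplicit false

namespace Pool.Agent.H30.RK

/-- the property passes to subgroups -/
lemma Good.sub {G : Type} [Group G] {c : ℕ} (h : Good G c) (H : Subgroup G) : Good H c := by
  intro A S _ f hf hS hab
  have e : A ≃* A.map H.subtype := A.equivMapOfInjective H.subtype H.subtype_injective
  refine h (A.map H.subtype) S (f.comp e.symm.toMonoidHom) ?_ hS hab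
  intro y
  obtain ⟨x, hx⟩ := hf y
  exact ⟨e x, by simp [hx]⟩

theorem orbit (hM : S_MAIN) (G : Type) [Group G] [Finite G] (F : Type) [Field F]
    (V : Type) [AddCommGroup V] [Module F V] (ρ : Representation F G V)
    (hρ : Function.Injective ρ) (hF : Cardinal.mk (Subgroup G) < Cardinal.mk F)
    (hchar : ringChar F = 0 ∨ Nat.Coprime (ringChar F) (Nat.card G)) (c : ℕ) (hG : Good G c)
    (H : Subgroup G) : ∃ s : Finset G,
      s.card ≤ (c + 2) * (4 * Set.ncard {k : ℕ | ∃ v : V,
        Set.ncard (Set.range fun g : G => ρ g v) = k} - 3) ∧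
      Subgroup.closure (s : Set G) = H := by
  classical
  obtain ⟨h1, -⟩ := Pool.Agent.Results.MP_518c18_al.SolubleRank.result G F V ρ hρ hF hchar
  obtain ⟨s, hs, hs'⟩ := hM H c (4 * Set.ncard {k : ℕ | ∃ v : V,
        Set.ncard (Set.range fun g : G => ρ g v) = k} - 3) (hG.sub H) (by
    intro A hA
    have hA2 : Group.IsSolvable (A.map H.subtype) :=
      Group.isSolvable_of_surjective (f := (H.subtype.subgroupMap A))
        (H.subtype.subgroupMap_surjective A)
    obtain ⟨s, hs, hs'⟩ := h1 (A.map H.subtype) hA2
    have hsH : ∀ x ∈ s, x ∈ H := by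
      intro x hx
      have h2 : x ∈ A.map H.subtype := by
        rw [← hs']
        exact Subgroup.subset_closure hx
      obtain ⟨y, -, rfl⟩ := h2
      exact y.2
    refine ⟨s.subtype (· ∈ H), ?_, ?_⟩
    · refine le_trans ?_ hs
      rw [Finset.card_subtype]
      exact Finset.card_filter_le _ _
    · apply Subgroup.map_injective H.subtype_injective
      rw [MonoidHom.map_closure, ← hs']
      congr 1
      ext x
      constructor
      · rintro ⟨y, hy, rfl⟩
        exact Finset.mem_subtype.1 hy
      · intro hx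
        exact ⟨⟨x, hsH x hx⟩, Finset.mem_subtype.2 hx, rfl⟩)
  refine ⟨s.image H.subtype, Finset.card_image_le.trans hs, ?_⟩
  rw [Finset.coe_image, ← MonoidHom.map_closure, hs', ← MonoidHom.range_eq_map,
    Subgroup.range_subtype]

end Pool.Agent.H30.RK
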