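import Pool.Agent.H30.RK.Stm

/-!
# Project RK, module MAIN
-/

set_option autoImplicit false

namespace Pool.Agent.H30.RK

/-- the preimage of a soluble subgroup under a homomorphism with a soluble kernel is soluble -/
lemma comap_sol {H X : Type} [Group H] [Group X] (f : H →* X) (hf : Group.IsSolvable f.ker)
    (A : Subgroup X) (hA : Group.IsSolvable A) : Group.IsSolvable (A.comap f) := by
  have hle : f.ker ≤ A.comap f := by
    intro x hx
    rw [Subgroup.mem_comap, (MonoidHom.mem_ker).1 hx]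
    exact A.one_mem
  refine Group.isSolvable_of_ker_le_range (Subgroup.inclusion hle)
    (f.subgroupComap A) ?_
  intro x hx
  rw [MonoidHom.mem_ker] at hx
  have h1 : f (x : H) = 1 := congrArg Subtype.val hx
  exact ⟨⟨x, (MonoidHom.mem_ker).2 h1⟩, Subtype.ext rfl⟩

/-- a maximal soluble normal subgroup; the quotient has no soluble normal subgroups -/
lemma exists_radical (H : Type) [Group H] [Finite H] :
    ∃ R : Subgroup H, ∃ _ : R.Normal, Group.IsSolvable R ∧
      ∀ A : Subgroup (H ⧸ R), A.Normal → Group.IsSolvable A → A = ⊥ := by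
  obtain ⟨R, hR⟩ := (Set.toFinite {R : Subgroup H | R.Normal ∧ Group.IsSolvable R}).exists_maximal
    ⟨⊥, Subgroup.normal_bot, inferInstance⟩
  have hN : R.Normal := hR.1.1
  refine ⟨R, hN, hR.1.2, ?_⟩
  intro A hA hs
  have h1 : Group.IsSolvable (QuotientGroup.mk' R).ker := by
    rw [QuotientGroup.ker_mk']
    exact hR.1.2
  have h2 := comap_sol (QuotientGroup.mk' R) h1 A hs
  have h3 : (A.comap (QuotientGroup.mk' R)) ≤ R := by
    apply hR.2 ⟨hA.comap _, h2⟩
    intro x hx
    rw [Subgroup.mem_comap]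
    have : (QuotientGroup.mk' R) x = 1 := (QuotientGroup.eq_one_iff x).2 hx
    rw [this]
    exact A.one_mem
  rw [eq_bot_iff]
  intro a ha
  obtain ⟨x, rfl⟩ := QuotientGroup.mk'_surjective R a
  have h4 : x ∈ R := h3 ha
  rw [Subgroup.mem_bot]
  exact (QuotientGroup.eq_one_iff x).2 h4

/-- the action on `𝒮` by conjugation -/
@[reducible] def act (X : Type) [Group X] (𝒮 : Set (Subgroup X)) (h : Soc X 𝒮) :
    MulAction X 𝒮 where
  smul x S := ⟨(S : Subgroup X).map (MulAut.conj x).toMonoidHom, h.conj S.1 S.2 x⟩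
  one_smul S := by
    apply Subtype.ext
    change (S : Subgroup X).map (MulAut.conj (1 : X)).toMonoidHom = S
    have : (MulAut.conj (1 : X)).toMonoidHom = MonoidHom.id X := by
      ext z
      simp
    rw [this, Subgroup.map_id]
  mul_smul x y S := by
    apply Subtype.ext
    change (S : Subgroup X).map (MulAut.conj (x * y)).toMonoidHom =
        ((S : Subgroup X).map (MulAut.conj y).toMonoidHom).map (MulAut.conj x).toMonoidHom
    rw [Subgroup.map_map]
    congr 1
    ext z
    simp [MulAut.conj_apply, mul_assoc]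

lemma perm_soc (hP : S_PERM) (X : Type) [Group X] [Finite X] (𝒮 : Set (Subgroup X))
    (h : Soc X 𝒮) : ∃ s : Finset X, s.card ≤ Nat.card 𝒮 ∧
      Subgroup.closure ((s : Set X) ∪ (ker X 𝒮 : Set X)) = ⊤ := by
  let _ := act X 𝒮 h
  obtain ⟨s, hs1, hs2⟩ := hP X 𝒮
  refine ⟨s, hs1, ?_⟩
  rw [← hs2]
  congr 2
  ext x
  constructor
  · intro hx
    rw [SetLike.mem_coe, MonoidHom.mem_ker]
    ext1 S
    exact Subtype.ext (hx S.1 S.2)
  · intro hx S hS
    rw [SetLike.mem_coe, MonoidHom.mem_ker] at hx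
    have h1 : (MulAction.toPermHom X 𝒮) x ⟨S, hS⟩ = ⟨S, hS⟩ := by
      rw [hx]
      rfl
    exact congrArg Subtype.val h1

lemma sSup_le_ker (X : Type) [Group X] (𝒮 : Set (Subgroup X)) (h : Soc X 𝒮) :
    sSup 𝒮 ≤ ker X 𝒮 := by
  apply sSup_le
  intro T hT a ha S hS
  have key : ∀ b ∈ S, a * b * a⁻¹ ∈ S := by
    intro b hb
    by_cases hST : T = S
    · subst hST
      exact T.mul_mem (T.mul_mem ha hb) (T.inv_mem ha)
    · have := h.comm T hT S hS hST a ha b hb
      rw [this]
      simpa using hb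
  have key' : ∀ b ∈ S, a⁻¹ * b * a ∈ S := by
    intro b hb
    by_cases hST : T = S
    · subst hST
      exact T.mul_mem (T.mul_mem (T.inv_mem ha) hb) ha
    · have := h.comm T hT S hS hST a ha b hb
      have h2 : a⁻¹ * b * a = b := by
        rw [mul_assoc, ← this, ← mul_assoc, inv_mul_cancel, one_mul]
      rw [h2]
      exact hb
  ext b
  constructor
  · rintro ⟨c, hc, rfl⟩
    exact key c hc
  · intro hb
    exact ⟨a⁻¹ * b * a, key' b hb, by simp [MulAut.conj_apply, mul_assoc]⟩

/-- a soluble subgroup `T` with `ker X 𝒮 ≤ T ⊔ sSup 𝒮` -/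
lemma exists_supp (hS : S_SUP) (hO : S_OUT) (X : Type) [Group X] [Finite X]
    (𝒮 : Set (Subgroup X)) (h : Soc X 𝒮)
    (hout : ∀ S ∈ 𝒮, ∃ l : ℕ, derivedSeries (MulAut S) l ≤ (MulAut.conj : S →* MulAut S).range) :
    ∃ T : Subgroup X, Group.IsSolvable T ∧ ker X 𝒮 ≤ T ⊔ sSup 𝒮 := by
  obtain ⟨l, hl⟩ := hO X 𝒮 h hout
  have hnorm : (sSup 𝒮).Normal := by
    have h1 : ∀ x : X, (sSup 𝒮).map (MulAut.conj x).toMonoidHom ≤ sSup 𝒮 := by
      intro x
      rw [sSup_eq_iSup, Subgroup.map_iSup]
      apply iSup_le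
      intro S
      rw [Subgroup.map_iSup]
      apply iSup_le
      intro hS
      exact le_iSup₂_of_le (S.map (MulAut.conj x).toMonoidHom) (h.conj S hS x) le_rfl
    refine ⟨fun n hn g => ?_⟩
    exact h1 g ⟨n, hn, rfl⟩
  set K := ker X 𝒮 with hK
  have hn2 : ((sSup 𝒮).subgroupOf K).Normal := inferInstance
  have hsol : Group.IsSolvable (K ⧸ (sSup 𝒮).subgroupOf K) := by
    refine ⟨⟨l, ?_⟩⟩
    rw [← map_derivedSeries_eq (QuotientGroup.mk'_surjective ((sSup 𝒮).subgroupOf K)) l]
    rw [eq_bot_iff]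
    rintro _ ⟨y, hy, rfl⟩
    rw [Subgroup.mem_bot]
    refine (QuotientGroup.eq_one_iff y).2 ?_
    rw [Subgroup.mem_subgroupOf]
    exact hl ⟨y, hy, rfl⟩
  obtain ⟨T, hT, hT2⟩ := hS K ((sSup 𝒮).subgroupOf K) hsol
  refine ⟨T.map K.subtype, ?_, ?_⟩
  · exact Group.isSolvable_of_surjective (f := (K.subtype.subgroupMap T))
      (K.subtype.subgroupMap_surjective T)
  · have h3 := congrArg (Subgroup.map K.subtype) hT2
    rw [Subgroup.map_sup, Subgroup.subgroupOf_map_subtype, ← MonoidHom.range_eq_map,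
      Subgroup.range_subtype] at h3
    exact h3.ge.trans (sup_le_sup le_rfl inf_le_left)

/-- commuting soluble subgroups generate a soluble subgroup -/
lemma sol_sup {X : Type} [Group X] {A B : Subgroup X} (hA : Group.IsSolvable A)
    (hB : Group.IsSolvable B) (h : ∀ a ∈ A, ∀ b ∈ B, a * b = b * a) :
    Group.IsSolvable (A ⊔ B : Subgroup X) := by
  let φ : A × B →* X := MonoidHom.noncommCoprod A.subtype B.subtype (fun a b => h a a.2 b b.2)
  have hle : A ⊔ B ≤ φ.range := by
    apply sup_le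
    · intro a ha
      exact ⟨(⟨a, ha⟩, 1), by simp [φ]⟩
    · intro b hb
      exact ⟨(1, ⟨b, hb⟩), by simp [φ]⟩
  have h1 : Group.IsSolvable φ.range :=
    Group.isSolvable_of_surjective (f := φ.rangeRestrict) φ.rangeRestrict_surjective
  exact Group.isSolvable_of_isSolvable_injective (f := Subgroup.inclusion hle)
    (Subgroup.inclusion_injective hle)

/-- soluble subgroups of the members of `𝒮` generate a soluble subgroup -/
lemma sol_iSup {X : Type} [Group X] {𝒮 : Set (Subgroup X)} (h : Soc X 𝒮) [Finite 𝒮]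
    (A : 𝒮 → Subgroup X) (hA : ∀ S, A S ≤ S) (hs : ∀ S, Group.IsSolvable (A S)) :
    Group.IsSolvable (⨆ S, A S : Subgroup X) := by
  classical
  have hfin : Fintype 𝒮 := Fintype.ofFinite _
  have key : ∀ D : Finset 𝒮, Group.IsSolvable (⨆ S ∈ D, A S : Subgroup X) := by
    intro D
    induction D using Finset.induction_on with
    | empty =>
      have e : (⨆ S ∈ (∅ : Finset 𝒮), A S) = ⊥ := by simp
      rw [e]
      infer_instance
    | insert S D hS ih =>
      rw [Finset.iSup_insert]
      apply sol_sup (hs S) ih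
      intro a ha b hb
      have h1 : (⨆ T ∈ D, A T) ≤ Subgroup.centralizer {a} := by
        apply iSup₂_le
        intro T hT y hy
        rw [Subgroup.mem_centralizer_singleton_iff]
        refine h.comm T T.2 S S.2 ?_ y (hA T hy) a (hA S ha)
        intro hh
        apply hS
        rw [← Subtype.ext hh]
        exact hT
      have h2 := h1 hb
      rw [Subgroup.mem_centralizer_singleton_iff] at h2
      exact h2.symm
  have e : (⨆ S ∈ (Finset.univ : Finset 𝒮), A S) = ⨆ S, A S := by simp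
  rw [← e]
  exact key Finset.univ

/-- generators of the socle -/
lemma gen_soc (X : Type) [Group X] [Finite X] (𝒮 : Set (Subgroup X)) (h : Soc X 𝒮) (c : ℕ)
    (hc : ∀ S ∈ 𝒮, ∃ B : Fin c → Subgroup S, (∀ i, Group.IsSolvable (B i)) ∧ ⨆ i, B i = ⊤) :
    ∃ C : Fin c → Subgroup X, (∀ i, Group.IsSolvable (C i)) ∧ sSup 𝒮 ≤ ⨆ i, C i := by
  classical
  choose B hB hB2 using fun S : 𝒮 => hc S.1 S.2
  refine ⟨fun i => ⨆ S : 𝒮, (B S i).map (S : Subgroup X).subtype, ?_, ?_⟩
  · intro i
    apply sol_iSup h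
    · rintro S _ ⟨x, -, rfl⟩
      exact x.2
    · intro S
      have := hB S i
      exact Group.isSolvable_of_surjective
        (f := ((S : Subgroup X).subtype.subgroupMap (B S i)))
        ((S : Subgroup X).subtype.subgroupMap_surjective (B S i))
  · apply sSup_le
    intro S hS
    have h2 := congrArg (Subgroup.map S.subtype) (hB2 ⟨S, hS⟩)
    rw [Subgroup.map_iSup, ← MonoidHom.range_eq_map, Subgroup.range_subtype] at h2
    refine h2.ge.trans ?_
    apply iSup_mono
    intro i
    exact le_iSup (fun S : 𝒮 => (B S i).map (S : Subgroup X).subtype) ⟨S, hS⟩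

theorem main (hP : S_PERM) (hC : S_SOC) (hS : S_SUP) (hO : S_OUT) (hR : S_RNK) : S_MAIN := by
  classical
  intro H _ _ c m hG hm
  obtain ⟨R, hRn, hRs, hRX⟩ := exists_radical H
  obtain ⟨𝒮, h⟩ := hC (H ⧸ R) hRX
  set X := H ⧸ R with hX
  set π : H →* X := QuotientGroup.mk' R with hπ
  have hπs : Function.Surjective π := QuotientGroup.mk'_surjective R
  have hker : Group.IsSolvable π.ker := by
    rw [hπ, QuotientGroup.ker_mk']
    exact hRs
  -- properties of the factors
  have hgood : ∀ S ∈ 𝒮, Even (Nat.card S) ∧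
      (∃ B : Fin c → Subgroup S, (∀ i, Group.IsSolvable (B i)) ∧ ⨆ i, B i = ⊤) ∧
      ∃ l : ℕ, derivedSeries (MulAut S) l ≤ (MulAut.conj : S →* MulAut S).range := by
    intro S hS
    refine hG (S.comap π) S (π.subgroupComap S) ?_ (h.simple S hS) ?_
    · rintro ⟨y, hy⟩
      obtain ⟨x, hx⟩ := hπs y
      exact ⟨⟨x, by rw [Subgroup.mem_comap, hx]; exact hy⟩, Subtype.ext hx⟩
    · obtain ⟨a, ha, b, hb, hab⟩ := h.nonab S hS
      exact ⟨⟨a, ha⟩, ⟨b, hb⟩, fun h => hab (congrArg Subtype.val h)⟩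
  have hk : Nat.card 𝒮 ≤ m := hR X 𝒮 h (fun S hS => (hgood S hS).1) H π hπs hker m hm
  obtain ⟨s1, hs1, hs1'⟩ := perm_soc hP X 𝒮 h
  obtain ⟨T, hT, hT'⟩ := exists_supp hS hO X 𝒮 h (fun S hS => (hgood S hS).2.2)
  obtain ⟨C, hC1, hC2⟩ := gen_soc X 𝒮 h c (fun S hS => (hgood S hS).2.1)
  obtain ⟨s0, hs0, hs0'⟩ := hm (T.comap π) (comap_sol π hker T hT)
  choose s2 hs2 hs2' using fun i : Fin c => hm ((C i).comap π) (comap_sol π hker (C i) (hC1 i))
  -- lifts
  let g : X → H := Function.surjInv hπs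
  have hg : ∀ x, π (g x) = x := Function.surjInv_eq hπs
  refine ⟨s0 ∪ s1.image g ∪ Finset.univ.biUnion s2, ?_, ?_⟩
  · calc (s0 ∪ s1.image g ∪ Finset.univ.biUnion s2).card
        ≤ (s0 ∪ s1.image g).card + (Finset.univ.biUnion s2).card := Finset.card_union_le _ _
      _ ≤ s0.card + (s1.image g).card + (Finset.univ.biUnion s2).card := by
        have := Finset.card_union_le s0 (s1.image g)
        omega
      _ ≤ m + m + c * m := by
        have h1 : (s1.image g).card ≤ s1.card := Finset.card_image_le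
        have h2 : (Finset.univ.biUnion s2).card ≤ c * m := by
          calc (Finset.univ.biUnion s2).card ≤ ∑ i : Fin c, (s2 i).card :=
                Finset.card_biUnion_le
            _ ≤ ∑ i : Fin c, m := Finset.sum_le_sum fun i _ => hs2 i
            _ = c * m := by simp
        omega
      _ = (c + 2) * m := by ring
  · set A : Subgroup H :=
      Subgroup.closure ((s0 ∪ s1.image g ∪ Finset.univ.biUnion s2 : Finset H) : Set H) with hA
    have hsub : ∀ y ∈ s0 ∪ s1.image g ∪ Finset.univ.biUnion s2, y ∈ A := fun y hy =>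
      Subgroup.subset_closure hy
    have hTA : T.comap π ≤ A := by
      rw [← hs0']
      apply Subgroup.closure_mono
      intro y hy
      simp only [Finset.coe_union, Set.mem_union]
      exact Or.inl (Or.inl hy)
    have hkerA : π.ker ≤ A := le_trans (fun x hx => by
      rw [Subgroup.mem_comap, (MonoidHom.mem_ker).1 hx]; exact T.one_mem) hTA
    have hT2 : T ≤ A.map π := by
      intro y hy
      obtain ⟨x, rfl⟩ := hπs y
      exact ⟨x, hTA hy, rfl⟩
    have hN : sSup 𝒮 ≤ A.map π := by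
      refine hC2.trans (iSup_le fun i => ?_)
      have h3 : (C i).comap π ≤ A := by
        rw [← hs2' i, Subgroup.closure_le]
        intro y hy
        exact hsub y (Finset.mem_union_right _
          (Finset.mem_biUnion.2 ⟨i, Finset.mem_univ i, hy⟩))
      intro y hy
      obtain ⟨x, rfl⟩ := hπs y
      exact ⟨x, h3 hy, rfl⟩
    have hK : ker X 𝒮 ≤ A.map π := hT'.trans (sup_le hT2 hN)
    have htop : A.map π = ⊤ := by
      rw [eq_top_iff, ← hs1', Subgroup.closure_le]
      rintro y (hy | hy)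
      · exact ⟨g y, hsub _ (Finset.mem_union_left _
          (Finset.mem_union_right _ (Finset.mem_image_of_mem g hy))), hg y⟩
      · exact hK hy
    rw [eq_top_iff]
    intro x _
    have hx : π x ∈ A.map π := by rw [htop]; trivial
    obtain ⟨a, ha, hax⟩ := hx
    have h1 : a⁻¹ * x ∈ A := by
      apply hkerA
      rw [MonoidHom.mem_ker, map_mul, map_inv, hax, inv_mul_cancel]
    have h2 := A.mul_mem ha h1
    rwa [mul_inv_cancel_left] at h2

end Pool.Agent.H30.RK
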