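import Pool.Agent.H30.RK.Main

/-!
# Project RK, module RNK
-/

set_option autoImplicit false

namespace Pool.Agent.H30.RK

/-- a commutative group of exponent two generated by `s` has at most `2 ^ |s|` elements -/
lemma card_closure (E : Type) [CommGroup E] [Finite E] (hE : ∀ x : E, x ^ 2 = 1) (s : Finset E) :
    Nat.card (Subgroup.closure (s : Set E)) ≤ 2 ^ s.card := by
  classical
  induction s using Finset.induction_on with
  | empty => simp
  | insert a s ha ih =>
    rw [Finset.coe_insert, Set.insert_eq, Subgroup.closure_union,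
      Finset.card_insert_of_notMem ha, pow_succ]
    have h1 : Nat.card (Subgroup.closure ({a} : Set E)) ≤ 2 := by
      rw [← Subgroup.zpowers_eq_closure, Nat.card_zpowers]
      exact Nat.le_of_dvd two_pos (orderOf_dvd_of_pow_eq_one (hE a))
    have h2 : Nat.card (Subgroup.closure ({a} : Set E) ⊔ Subgroup.closure (s : Set E) :
        Subgroup E) ≤ Nat.card (Subgroup.closure ({a} : Set E)) *
          Nat.card (Subgroup.closure (s : Set E)) := by
      rw [← Nat.card_prod]
      refine Nat.card_le_card_of_surjective (fun p :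
        Subgroup.closure ({a} : Set E) × Subgroup.closure (s : Set E) =>
        (⟨(p.1 : E) * p.2, Subgroup.mul_mem_sup p.1.2 p.2.2⟩ :
          (Subgroup.closure ({a} : Set E) ⊔ Subgroup.closure (s : Set E) : Subgroup E))) ?_
      rintro ⟨x, hx⟩
      obtain ⟨y, hy, z, hz, hyz⟩ := Subgroup.mem_sup.1 hx
      exact ⟨⟨⟨y, hy⟩, ⟨z, hz⟩⟩, Subtype.ext hyz⟩
    calc _ ≤ _ := h2
      _ ≤ 2 * 2 ^ s.card := Nat.mul_le_mul h1 ih
      _ = 2 ^ s.card * 2 := by ring

/-- an element of `S ∈ 𝒮` commuting with `S` is trivial -/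
lemma center_triv {X : Type} [Group X] {𝒮 : Set (Subgroup X)} (h : Soc X 𝒮) {S : Subgroup X}
    (hS : S ∈ 𝒮) {x : X} (hx : x ∈ S) (hc : ∀ a ∈ S, x * a = a * x) : x = 1 := by
  apply h.cent
  intro T hT a ha
  by_cases hST : S = T
  · subst hST
    exact hc a ha
  · exact h.comm S hS T hT hST x hx a ha

theorem rnk : S_RNK := by
  classical
  intro X _ _ 𝒮 h hev H _ _ f hf hker m hm
  have hfin : Fintype 𝒮 := Fintype.ofFinite _
  have ht : ∀ S : 𝒮, ∃ t : X, t ∈ (S : Subgroup X) ∧ orderOf t = 2 := by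
    intro S
    have : Fact (Nat.Prime 2) := ⟨Nat.prime_two⟩
    obtain ⟨t, ht⟩ := exists_prime_orderOf_dvd_card' (G := (S : Subgroup X)) 2
      (even_iff_two_dvd.1 (hev S.1 S.2))
    exact ⟨t, t.2, by rw [← ht]; exact Subgroup.orderOf_coe t⟩
  choose t ht ht2 using ht
  let Z : 𝒮 → Subgroup X := fun S => Subgroup.zpowers (t S)
  have hZS : ∀ S : 𝒮, Z S ≤ S := fun S => by
    rw [Subgroup.zpowers_le]
    exact ht S
  have hcomm : Pairwise fun S T : 𝒮 => ∀ x y : X, x ∈ Z S → y ∈ Z T → Commute x y := by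
    intro S T hST x y hx hy
    exact h.comm S S.2 T T.2 (fun hh => hST (Subtype.ext hh)) x (hZS S hx) y (hZS T hy)
  have hind : iSupIndep Z := by
    intro S
    rw [disjoint_iff, eq_bot_iff]
    rintro x ⟨hx, hx'⟩
    rw [Subgroup.mem_bot]
    refine center_triv h S.2 (hZS S hx) ?_
    intro a ha
    have h1 : (⨆ T, ⨆ (_ : T ≠ S), Z T) ≤ Subgroup.centralizer {a} := by
      apply iSup₂_le
      intro T hTS y hy
      rw [Subgroup.mem_centralizer_singleton_iff]
      exact h.comm T T.2 S S.2 (fun hh => hTS (Subtype.ext hh)) y (hZS T hy) a ha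
    have h2 := h1 hx'
    rw [Subgroup.mem_centralizer_singleton_iff] at h2
    exact h2
  let φ : (∀ S : 𝒮, Z S) →* X := Subgroup.noncommPiCoprod hcomm
  have hφ : Function.Injective φ := Subgroup.injective_noncommPiCoprod_of_iSupIndep hind
  have hPc : ∀ a b : (∀ S : 𝒮, Z S), a * b = b * a := by
    intro a b
    funext S
    obtain ⟨i, hi⟩ := Subgroup.mem_zpowers_iff.1 (a S).2
    obtain ⟨j, hj⟩ := Subgroup.mem_zpowers_iff.1 (b S).2
    apply Subtype.ext
    rw [Pi.mul_apply, Pi.mul_apply, Subgroup.coe_mul, Subgroup.coe_mul, ← hi, ← hj]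
    exact (zpow_mul_comm _ _ _)
  have hPe : ∀ a : (∀ S : 𝒮, Z S), a ^ 2 = 1 := by
    intro a
    funext S
    obtain ⟨i, hi⟩ := Subgroup.mem_zpowers_iff.1 (a S).2
    apply Subtype.ext
    rw [Pi.pow_apply, Pi.one_apply, Subgroup.coe_pow, Subgroup.coe_one, ← hi]
    have h3 : t S ^ 2 = 1 := by rw [← ht2 S, pow_orderOf_eq_one]
    rw [← zpow_natCast, ← zpow_mul, mul_comm, zpow_mul, zpow_natCast, h3, one_zpow]
  have hcard : Nat.card (∀ S : 𝒮, Z S) = 2 ^ Nat.card 𝒮 := by
    rw [Nat.card_pi, Finset.prod_congr rfl fun S _ => (by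
      rw [Nat.card_zpowers, ht2 S] : Nat.card (Z S) = 2), Finset.prod_const, Finset.card_univ,
      Nat.card_eq_fintype_card]
  -- the elementary abelian group
  set E : Subgroup X := φ.range with hE
  have hEc : ∀ a b : E, a * b = b * a := by
    rintro ⟨_, a, rfl⟩ ⟨_, b, rfl⟩
    apply Subtype.ext
    rw [Subgroup.coe_mul, Subgroup.coe_mul]
    simp only
    rw [← map_mul, hPc, map_mul]
  have hEe : ∀ a : E, a ^ 2 = 1 := by
    rintro ⟨_, a, rfl⟩
    apply Subtype.ext
    rw [Subgroup.coe_pow, Subgroup.coe_one]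
    simp only
    rw [← map_pow, hPe, map_one]
  have hEcard : Nat.card E = 2 ^ Nat.card 𝒮 := by
    rw [← hcard]
    exact (Nat.card_congr (MonoidHom.ofInjective hφ).toEquiv).symm
  have hEs : Group.IsSolvable E := Group.isSolvable_of_comm hEc
  obtain ⟨s, hs, hs'⟩ := hm (E.comap f) (comap_sol f hker E hEs)
  -- generators of `E`
  have hsE : ∀ x ∈ s, f x ∈ E := by
    intro x hx
    have : x ∈ E.comap f := by
      rw [← hs']
      exact Subgroup.subset_closure hx
    exact this
  let _ : CommGroup E := { (inferInstance : Group E) with mul_comm := hEc }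
  let s' : Finset E := (s.image f).subtype (· ∈ E)
  have hs'c : s'.card ≤ m := by
    rw [Finset.card_subtype]
    exact (Finset.card_filter_le _ _).trans (Finset.card_image_le.trans hs)
  have hs'g : Subgroup.closure (s' : Set E) = ⊤ := by
    apply Subgroup.map_injective E.subtype_injective
    rw [MonoidHom.map_closure, ← MonoidHom.range_eq_map, Subgroup.range_subtype]
    have h4 := congrArg (Subgroup.map f) hs'
    rw [MonoidHom.map_closure, Subgroup.map_comap_eq_self_of_surjective hf] at h4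
    refine Eq.trans ?_ h4
    congr 1
    ext x
    constructor
    · rintro ⟨y, hy, rfl⟩
      have := Finset.mem_subtype.1 hy
      rw [Finset.mem_image] at this
      obtain ⟨z, hz, hz'⟩ := this
      exact ⟨z, hz, hz'⟩
    · rintro ⟨y, hy, rfl⟩
      exact ⟨⟨f y, hsE y hy⟩, Finset.mem_subtype.2 (Finset.mem_image_of_mem f hy), rfl⟩
  have h5 := card_closure E hEe s'
  rw [hs'g, Subgroup.card_top, hEcard] at h5
  have h6 := (Nat.pow_le_pow_iff_right (by norm_num : 1 < 2)).1 h5
  exact h6.trans hs'c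

end Pool.Agent.H30.RK
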