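import Mathlib

/-!
# Project RK (MP_518c18_al): rank of a finite group from the rank of its soluble subgroups

`X` is a finite group. Modules and their proofs on paper.
-/

set_option autoImplicit false

namespace Pool.Agent.H30.RK

/-- **PERM**. A finite group `X` acting on a finite set `Ω` is generated by the kernel of the
action and at most `|Ω|` elements.
PROOF. For a subgroup `A` let `o(A)` be the number of orbits of `A` on `Ω`
(`Nat.card (MulAction.orbitRel.Quotient A Ω)` or any other count).
(1) If `A ≤ A'` and `o(A) = o(A')` then the two orbit partitions are equal (the surjection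
`Ω/A → Ω/A'` is a bijection); in general `o(A') ≤ o(A)`.
(2) Let `B` be a subgroup, `α ∈ Ω`, `stabilizer_B(α) ≤ A ≤ B`. Then `B` is generated by `A` and at
most `o(A) - o(B)` elements: strong induction on `|B| - |A|`; if `A ≠ B` choose `g ∈ B ∖ A` and
`A' = A ⊔ ⟨g⟩`; if `o(A') = o(A)` then `A' α = A α`, so for `a' ∈ A'` there is `a ∈ A` with
`a' α = a α`, `a⁻¹ a' ∈ stabilizer_B(α) ≤ A`, so `A' = A`, a contradiction; so `o(A') < o(A)`.
(3) For a finite subset `Δ` of `Ω` let `G_Δ` be the pointwise stabilizer of the complement of `Δ`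
(or use an enumeration of `Ω`). By induction on `Δ`, `G_Δ` is generated by the kernel
`K = G_∅` and at most `|Ω| - o(G_Δ)` elements: `o(K) = |Ω|`, and in the step
`G_{Δ ∪ {α}} ⊇ G_Δ ⊇ ` stabilizer of `α` in `G_{Δ ∪ {α}}`, use (2). `Δ = Ω` is the claim. -/
def S_PERM : Prop :=
  ∀ (X : Type) [Group X] [Finite X] (Ω : Type) [Finite Ω] [MulAction X Ω],
    ∃ s : Finset X, s.card ≤ Nat.card Ω ∧
      Subgroup.closure ((s : Set X) ∪ ((MulAction.toPermHom X Ω).ker : Set X)) = ⊤

/-- the set of subgroups `𝒮` of `X`: pairwise commuting, nonabelian and simple, permuted by `X`,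
with trivial common centralizer -/
structure Soc (X : Type) [Group X] (𝒮 : Set (Subgroup X)) : Prop where
  simple : ∀ S ∈ 𝒮, IsSimpleGroup S
  nonab : ∀ S ∈ 𝒮, ∃ a ∈ S, ∃ b ∈ S, a * b ≠ b * a
  comm : ∀ S ∈ 𝒮, ∀ T ∈ 𝒮, S ≠ T → ∀ a ∈ S, ∀ b ∈ T, a * b = b * a
  conj : ∀ S ∈ 𝒮, ∀ x : X, S.map (MulAut.conj x).toMonoidHom ∈ 𝒮
  cent : ∀ x : X, (∀ S ∈ 𝒮, ∀ a ∈ S, x * a = a * x) → x = 1

/-- **SOC**. A finite group without nontrivial soluble normal subgroups has such a set.
PROOF. `𝒮` = the set of all `S` such that for some minimal normal subgroup `M` of `X`: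
`S ≠ ⊥`, `S ≤ M`, `S` is normalised by `M` and every `A ≤ S` normalised by `M` is `⊥` or `S`.
* Two distinct minimal `M`-invariant subgroups `S, T` of `M` have `S ⊓ T = ⊥` and commute
(`[S,T] ≤ S ⊓ T`); the same for two distinct minimal normal subgroups `M, M'` of `X`.
* `conj`: a conjugation maps `M` to `M` and permutes the minimal `M`-invariant subgroups of `M`.
* `simple`: let `A` be normal in `S`, `S ∈ 𝒮` with `M`. The conjugates of `S` under `X` generate a
normal subgroup of `X` inside `M`, so `M`. All conjugates other than `S` commute with `S`. So `A`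
is normalised by `S` and by all other conjugates, so by `M`: `A = ⊥` or `A = S`.
* `nonab`: otherwise all conjugates of `S` are abelian and commute with each other, so `M` is
abelian, a nontrivial soluble normal subgroup of `X`.
* `cent`: the common centralizer `C` of all `S ∈ 𝒮` is normal in `X` (by `conj`). If `C ≠ ⊥` it
contains a minimal normal subgroup `M` of `X`; `M` contains some `S ∈ 𝒮` (a minimal `M`-invariant
subgroup), and `S ≤ M ≤ C` commutes with itself, against `nonab`. -/
def S_SOC : Prop :=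
  ∀ (X : Type) [Group X] [Finite X],
    (∀ A : Subgroup X, A.Normal → Group.IsSolvable A → A = ⊥) → ∃ 𝒮 : Set (Subgroup X), Soc X 𝒮

/-- **SUP**. If `K / N` is soluble then `N` has a soluble supplement in `K`.
PROOF. Let `T` be a subgroup of smallest order with `T ⊔ N = ⊤`. `D = N.subgroupOf T` is contained
in `frattini T`: for every maximal subgroup `M` of `T` (coatom) with `D ≰ M`, `M ⊔ D = ⊤`, so
`M.map T.subtype ⊔ N = T ⊔ N = ⊤`, against the choice of `T`. `frattini T` is nilpotent
(`frattini_nilpotent`), so soluble, so `D` is soluble; `T / D` embeds in `K / N` (the kernel of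
`(QuotientGroup.mk' N).comp T.subtype` is `D`), so `T` is soluble (`solvable_of_ker_le_range`). -/
def S_SUP : Prop :=
  ∀ (K : Type) [Group K] [Finite K] (N : Subgroup K) [N.Normal], Group.IsSolvable (K ⧸ N) →
    ∃ T : Subgroup K, Group.IsSolvable T ∧ T ⊔ N = ⊤

/-- the kernel of the action of `X` on `𝒮` by conjugation -/
def ker (X : Type) [Group X] (𝒮 : Set (Subgroup X)) : Subgroup X where
  carrier := {x | ∀ S ∈ 𝒮, S.map (MulAut.conj x).toMonoidHom = S}
  mul_mem' {x y} hx hy := by
    intro S hS
    have h1 : S.map (MulAut.conj (x * y)).toMonoidHom =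
        (S.map (MulAut.conj y).toMonoidHom).map (MulAut.conj x).toMonoidHom := by
      rw [Subgroup.map_map]
      congr 1
      ext z
      simp [MulAut.conj_apply, mul_assoc]
    rw [h1, hy S hS, hx S hS]
  one_mem' := by
    intro S hS
    have : (MulAut.conj (1 : X)).toMonoidHom = MonoidHom.id X := by
      ext z
      simp
    rw [this, Subgroup.map_id]
  inv_mem' {x} hx := by
    intro S hS
    have h1 := congrArg (fun A => A.map (MulAut.conj x⁻¹).toMonoidHom) (hx S hS)
    simp only [Subgroup.map_map] at h1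
    have h2 : (MulAut.conj x⁻¹).toMonoidHom.comp (MulAut.conj x).toMonoidHom =
        MonoidHom.id X := by
      ext z
      simp
      group
    rw [h2, Subgroup.map_id] at h1
    exact h1.symm

/-- **OUT**. If every `S ∈ 𝒮` has a soluble outer automorphism group then `ker / ⟨𝒮⟩` is soluble.
PROOF. `K = ker X 𝒮` acts on `S ∈ 𝒮` by conjugation, `φ_S : K →* MulAut S`. As `X` is finite there
is one `l` for all `S`. Let `x ∈ derivedSeries K l`; `φ_S x ∈ derivedSeries (MulAut S) l`
(`map_derivedSeries_le_derivedSeries`) is inner: there is `s ∈ S` with `x y x⁻¹ = s y s⁻¹` for all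
`y ∈ S`. Claim: for every finite `𝒟 ⊆ 𝒮` there is `n ∈ ⟨𝒟⟩` such that `x n⁻¹` commutes with all
elements of all `S ∈ 𝒟`. Induction: given `n` for `𝒟` and `S ∉ 𝒟`, `s` for `S` as above; `n`
commutes with `S`; take `s n`: `x (s n)⁻¹ = x n⁻¹ s⁻¹` acts on `S` as `x s⁻¹`, trivially, and on the
members of `𝒟` trivially as well, since `s` commutes with them. For `𝒟 = 𝒮`: `x n⁻¹ = 1` by
`cent`, so `x ∈ ⟨𝒮⟩`. So `derivedSeries K l ≤ ⟨𝒮⟩`, and the quotient is soluble. -/
def S_OUT : Prop :=
  ∀ (X : Type) [Group X] [Finite X] (𝒮 : Set (Subgroup X)), Soc X 𝒮 →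
    (∀ S ∈ 𝒮, ∃ l : ℕ, derivedSeries (MulAut S) l ≤ (MulAut.conj : S →* MulAut S).range) →
    ∃ l : ℕ, (derivedSeries (ker X 𝒮) l).map (ker X 𝒮).subtype ≤ sSup 𝒮

/-- **RNK**. If every `S ∈ 𝒮` has even order, `f : H → X` is onto with a soluble kernel and all
soluble subgroups of `H` are generated by `m` elements then `|𝒮| ≤ m`.
PROOF. Choose `t_S ∈ S` of order two (`exists_prime_orderOf_dvd_card`). `E = ⟨t_S : S ∈ 𝒮⟩` is
abelian of exponent two. Its preimage in `H` is soluble (kernel and image are), so it is generated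
by `m` elements, so `E` is generated by `m` elements, so `|E| ≤ 2 ^ m` (a finite abelian group of
exponent two generated by a finset `s` has at most `2 ^ s.card` elements: induction on `s`). And
`|E| ≥ 2 ^ |𝒮|`: the map from the subsets `D` of `𝒮` to `E`, `D ↦ ∏_{S ∈ D} t_S` is injective: else
there is a nonempty `D` (the symmetric difference) with product `1`, and for `S ∈ D` the element
`t_S` is a product of elements commuting with `S`, so `t_S` is in the centre of `S`, which is trivial
as `S` is simple and nonabelian. (Or use `Subgroup.noncommPiCoprod`, or an induction over the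
finset `𝒟 ⊆ 𝒮`: `|⟨t_S : S ∈ 𝒟 ∪ {S'}⟩| = 2 |⟨t_S : S ∈ 𝒟⟩|`, as `t_{S'}` is not in
`⟨t_S : S ∈ 𝒟⟩`.) -/
def S_RNK : Prop :=
  ∀ (X : Type) [Group X] [Finite X] (𝒮 : Set (Subgroup X)), Soc X 𝒮 →
    (∀ S ∈ 𝒮, Even (Nat.card S)) →
    ∀ (H : Type) [Group H] [Finite H] (f : H →* X), Function.Surjective f → Group.IsSolvable f.ker →
    ∀ m : ℕ, (∀ A : Subgroup H, Group.IsSolvable A →
      ∃ s : Finset H, s.card ≤ m ∧ Subgroup.closure (s : Set H) = A) → Nat.card 𝒮 ≤ m

/-- the property of the simple sections of `G`: each nonabelian simple group `S` which is a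
quotient of a subgroup of `G` has even order, is generated by `c` soluble subgroups and has a
soluble outer automorphism group -/
def Good (G : Type) [Group G] (c : ℕ) : Prop :=
  ∀ (A : Subgroup G) (S : Type) [Group S] (f : A →* S), Function.Surjective f →
    IsSimpleGroup S → (∃ a b : S, a * b ≠ b * a) →
    Even (Nat.card S) ∧
      (∃ B : Fin c → Subgroup S, (∀ i, Group.IsSolvable (B i)) ∧ ⨆ i, B i = ⊤) ∧
      ∃ l : ℕ, derivedSeries (MulAut S) l ≤ (MulAut.conj : S →* MulAut S).range

/-- **MAIN** (helper30). -/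
def S_MAIN : Prop :=
  ∀ (H : Type) [Group H] [Finite H] (c m : ℕ), Good H c →
    (∀ A : Subgroup H, Group.IsSolvable A →
      ∃ s : Finset H, s.card ≤ m ∧ Subgroup.closure (s : Set H) = A) →
    ∃ s : Finset H, s.card ≤ (c + 2) * m ∧ Subgroup.closure (s : Set H) = ⊤

end Pool.Agent.H30.RK
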