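import Pool.Agent.H30.RK.Stm

/-!
# Project RK, module SUP: soluble supplements
-/

set_option autoImplicit false

namespace Pool.Agent.H30.RK

theorem sup : S_SUP := by
  intro K _ _ N _ hsol
  obtain ⟨T, hT⟩ := (Set.toFinite {T : Subgroup K | T ⊔ N = ⊤}).exists_minimal ⟨⊤, by simp⟩
  have hTN : T ⊔ N = ⊤ := hT.1
  refine ⟨T, ?_, hTN⟩
  -- the intersection with `N` is contained in the Frattini subgroup
  have hfr : N.subgroupOf T ≤ frattini T := by
    rw [frattini, Order.radical]
    apply le_iInf₂
    intro M hM
    by_contra hle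
    have h1 : M ⊔ N.subgroupOf T = ⊤ := hM.2 _ (lt_of_le_of_ne le_sup_left fun h => hle (by
      rw [h]; exact le_sup_right))
    have h2 := congrArg (Subgroup.map T.subtype) h1
    rw [Subgroup.map_sup, Subgroup.subgroupOf_map_subtype, ← MonoidHom.range_eq_map,
      Subgroup.range_subtype] at h2
    have h3 : M.map T.subtype ⊔ N = ⊤ := by
      rw [eq_top_iff, ← hTN]
      apply sup_le
      · conv_lhs => rw [← h2]
        exact sup_le_sup le_rfl inf_le_left
      · exact le_sup_right
    have h4 : M.map T.subtype ≤ T := by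
      rintro _ ⟨x, -, rfl⟩
      exact x.2
    have h5 : T ≤ M.map T.subtype := hT.2 h3 h4
    apply hM.1
    rw [eq_top_iff]
    intro x _
    obtain ⟨y, hy, hyx⟩ := h5 x.2
    have : y = x := Subtype.ext hyx
    rwa [this] at hy
  have hnil : Group.IsNilpotent (frattini T) := frattini_nilpotent
  have hfs : Group.IsSolvable (frattini T) := inferInstance
  have hD : Group.IsSolvable (N.subgroupOf T) :=
    Group.isSolvable_of_isSolvable_injective (f := Subgroup.inclusion hfr)
      (Subgroup.inclusion_injective hfr)
  refine Group.isSolvable_of_ker_le_range (N.subgroupOf T).subtype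
    ((QuotientGroup.mk' N).comp T.subtype) ?_
  rw [Subgroup.range_subtype]
  intro x hx
  rw [MonoidHom.mem_ker, MonoidHom.comp_apply] at hx
  rw [Subgroup.mem_subgroupOf]
  exact (QuotientGroup.eq_one_iff _).1 hx

end Pool.Agent.H30.RK
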